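import Mathlib
import Pool.Agent.Helper22.Final

/-!
Mazur-Ulam theorem for metric linear spaces having arbitrarily small convex balls.
-/

set_option autoImplicit false

namespace Pool.Agent.Results.MP_1410a0_an.ConvexBalls

theorem result {E F : Type*} [NormedAddCommGroup E] [Module ℝ E] [ContinuousSMul ℝ E]
    [NormedAddCommGroup F] [Module ℝ F] [ContinuousSMul ℝ F]
    (hc : ∀ ε : ℝ, 0 < ε → ∃ s : ℝ, 0 < s ∧ s ≤ ε ∧ Convex ℝ (Metric.closedBall (0 : E) s))
    (f : E → F) (hf : Isometry f) (hs : Function.Surjective f) (h0 : f 0 = 0) :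
    ∃ L : E →ₗ[ℝ] F, ∀ x, L x = f x :=
  Pool.Agent.Helper22.linear_of_convex hc f hf hs h0

end Pool.Agent.Results.MP_1410a0_an.ConvexBalls
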