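import Mathlib
import Pool.Agent.Helper22.FSpace
import Pool.Agent.Helper42.MU.Halving

/-!
For a fixed metric linear space `E` the whole Mazur-Ulam assertion is equivalent to conditions on the
isometries of `E` onto itself which involve only halving.
-/

set_option autoImplicit false

namespace Pool.Agent.Results.MP_1410a0_an.HalvingCriterion

theorem result (E : Type) [NormedAddCommGroup E] [Module ℝ E] [ContinuousSMul ℝ E] :
    List.TFAE [
      ∀ g : E → E, Isometry g → Function.Surjective g → g 0 = 0 →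
        ∃ L : E →ₗ[ℝ] E, ∀ x, L x = g x,
      ∀ (F : Type) [NormedAddCommGroup F] [Module ℝ F] [ContinuousSMul ℝ F] (f : E → F),
        Isometry f → Function.Surjective f → f 0 = 0 → ∃ L : E →ₗ[ℝ] F, ∀ x, L x = f x,
      ∀ (G : Type) [NormedAddCommGroup G] (f : E → G),
        Isometry f → Function.Surjective f → f 0 = 0 → ∀ x y, f (x + y) = f x + f y,
      ∀ g : E → E, Isometry g → Function.Surjective g → ∀ x y : E,
        ‖(1 / 2 : ℝ) • (g x - g y)‖ ≤ ‖(1 / 2 : ℝ) • (x - y)‖,
      ∃ δ : ℝ, 0 < δ ∧ ∀ g : E → E, Isometry g → Function.Surjective g → g 0 = 0 →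
        ∀ x : E, ‖x‖ ≤ δ → g ((1 / 2 : ℝ) • x) = (1 / 2 : ℝ) • g x] := by
  tfae_have 3 → 2 := by
    intro h F _ _ _ f hf hs h0
    exact Pool.Agent.Helper22.linear_of_additive f hf (h F f hf hs h0)
  tfae_have 2 → 1 := by
    intro h g hg hs h0
    exact h E g hg hs h0
  tfae_have 1 → 4 := by
    intro h g hg hs x y
    obtain ⟨L, hL⟩ := h (fun w => g (w + y) - g y)
      (by
        apply Isometry.of_dist_eq
        intro v w
        rw [dist_sub_right, hg.dist_eq, dist_add_right])
      (by
        intro w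
        obtain ⟨v, hv⟩ := hs (w + g y)
        refine ⟨v - y, ?_⟩
        show g (v - y + y) - g y = w
        rw [sub_add_cancel, hv, add_sub_cancel_right])
      (by
        show g (0 + y) - g y = 0
        rw [zero_add, sub_self])
    have h1 := hL (x - y)
    have h2 := hL ((1 / 2 : ℝ) • (x - y))
    rw [sub_add_cancel] at h1
    rw [map_smul, h1] at h2
    rw [h2, ← dist_eq_norm, hg.dist_eq, dist_eq_norm, add_sub_cancel_right]
  tfae_have 1 → 5 := by
    intro h
    refine ⟨1, one_pos, ?_⟩
    intro g hg hs h0 x _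
    obtain ⟨L, hL⟩ := h g hg hs h0
    rw [← hL, ← hL, map_smul]
  tfae_have 4 → 3 := by
    intro h G _ f hf hs h0
    exact Pool.Agent.Helper42.MU.additive_of_scales 1 one_pos
      (fun g hg hgs n x y _ => Pool.Agent.Helper42.MU.scales_of_half h n g hg hgs x y) f hf hs h0
  tfae_have 5 → 3 := by
    rintro ⟨δ, hδ, h⟩ G _ f hf hs h0
    obtain ⟨δ', hδ', h'⟩ := Pool.Agent.Helper42.MU.scales_of_halving δ hδ h
    exact Pool.Agent.Helper42.MU.additive_of_scales δ' hδ' h' f hf hs h0
  tfae_finish

end Pool.Agent.Results.MP_1410a0_an.HalvingCriterion
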