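import Mathlib
import Pool.Agent.Helper22.Final

/-!
Mazur-Ulam theorem for metric linear spaces whose F-norm is of integral type,
`‖x‖ = ∫ φ_i (q_i x) dμ(i)`, with strictly increasing continuous subadditive `φ_i` and subadditive
symmetric `q_i` satisfying `q_i (2 x) ≥ κ_i q_i x`, `κ_i > 1` (for instance seminorms, `κ_i = 2`).
-/

set_option autoImplicit false

open MeasureTheory

namespace Pool.Agent.Results.MP_1410a0_an.IntegralType

theorem result {E F : Type*} [NormedAddCommGroup E] [Module ℝ E] [ContinuousSMul ℝ E]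
    [NormedAddCommGroup F] [Module ℝ F] [ContinuousSMul ℝ F]
    {I : Type*} [MeasurableSpace I] (μ : Measure I)
    (φ : I → ℝ → ℝ) (κ : I → ℝ) (q : I → E → ℝ)
    (hφ_cont : ∀ i, Continuous (φ i)) (hφ_mono : ∀ i, StrictMonoOn (φ i) (Set.Ici 0))
    (hφ_zero : ∀ i, φ i 0 = 0)
    (hφ_sub : ∀ i s t, 0 ≤ s → 0 ≤ t → φ i (s + t) ≤ φ i s + φ i t)
    (hκ : ∀ i, 1 < κ i) (hq_nonneg : ∀ i x, 0 ≤ q i x)
    (hq_add : ∀ x y, ∀ᵐ i ∂μ, q i (x + y) ≤ q i x + q i y)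
    (hq_neg : ∀ x, ∀ᵐ i ∂μ, q i (-x) = q i x)
    (hq_double : ∀ x, ∀ᵐ i ∂μ, κ i * q i x ≤ q i (x + x))
    (hint : ∀ x, Integrable (fun i => φ i (q i x)) μ)
    (hnorm : ∀ x : E, ‖x‖ = ∫ i, φ i (q i x) ∂μ)
    (f : E → F) (hf : Isometry f) (hs : Function.Surjective f) (h0 : f 0 = 0) :
    ∃ L : E →ₗ[ℝ] F, ∀ x, L x = f x := by
  have hd : Dense {x : E | ∃ n : ℕ, ∃ p ∈ (Set.univ : Set E), (2 : ℝ) ^ n • p = x} := by
    have : {x : E | ∃ n : ℕ, ∃ p ∈ (Set.univ : Set E), (2 : ℝ) ^ n • p = x} = Set.univ := by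
      apply Set.eq_univ_of_forall
      intro x
      refine ⟨0, x, Set.mem_univ x, ?_⟩
      rw [pow_zero, one_smul]
    rw [this]
    exact dense_univ
  exact Pool.Agent.Helper22.linear_of_nonSat Set.univ (fun p _ => Set.mem_univ (-p))
    (fun p _ => Set.mem_univ ((1 / 2 : ℝ) • p)) hd
    (fun p _ r _ => Pool.Agent.Helper22.nonSat_of_integral μ φ κ q hφ_cont hφ_mono hφ_zero
      hφ_sub hκ hq_nonneg hq_add hq_neg hq_double hint hnorm (p + r))
    f hf hs h0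

end Pool.Agent.Results.MP_1410a0_an.IntegralType
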