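import Mathlib
import Pool.Agent.Helper22.Final

/-!
A non-saturation criterion for the Mazur-Ulam theorem in metric linear spaces.
-/

set_option autoImplicit false

namespace Pool.Agent.Results.MP_1410a0_an.NonSaturation

theorem result {E F : Type*} [NormedAddCommGroup E] [Module ℝ E] [ContinuousSMul ℝ E]
    [NormedAddCommGroup F] [Module ℝ F] [ContinuousSMul ℝ F]
    (W : Set E) (hneg : ∀ p ∈ W, -p ∈ W) (hhalf : ∀ p ∈ W, (1 / 2 : ℝ) • p ∈ W)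
    (hdense : Dense {x : E | ∃ n : ℕ, ∃ p ∈ W, (2 : ℝ) ^ n • p = x})
    (hW : ∀ p ∈ W, ∀ q ∈ W, ∀ lam : ℝ, 0 < lam → ∃ ε : ℝ, 0 < ε ∧
      ∀ d : E, ‖p + q + d‖ = ‖p + q‖ → ‖p + q - d‖ = ‖p + q‖ → lam ≤ ‖d‖ → ‖d‖ + ε ≤ ‖d + d‖)
    (f : E → F) (hf : Isometry f) (hs : Function.Surjective f) (h0 : f 0 = 0) :
    ∃ L : E →ₗ[ℝ] F, ∀ x, L x = f x :=
  Pool.Agent.Helper22.linear_of_nonSat W hneg hhalf hdense
    (fun p hp q hq => hW p hp q hq) f hf hs h0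

end Pool.Agent.Results.MP_1410a0_an.NonSaturation
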